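import Mathlib
import Pool.Agent.H210.CatLE

set_option autoImplicit false

/-!
# MP_1fed52_co: the major index on the `123`-avoiding linear extensions of `NE_{s,2}`

Every linear extension of `NE_{s,2}` is a shuffle of two decreasing sequences, so avoids `123`, and
is coded by a Catalan word (`0` for the even labels, `1` for the odd ones).  Its ascents are the
peaks of height at least two of the word.  The sum of the positions of these peaks and the major
index have the same generating function on Catalan words, since both satisfy the same recursion, and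
this recursion also gives MacMahon's formula, hence the symmetry `c_s(q) = q^{s(s-1)} c_s(1/q)`.
-/

open Polynomial Finset

namespace Pool.Agent.Results.MP_1fed52_co.MajorIndex

/-- The order `x ⊴ y` of the poset `NE_{s,t}`, for elements numbered from `0`: writing
`x = q(x) t + r(x)` with `0 ≤ r(x) < t`, it is `q(y) ≤ q(x)` and `r(y) ≤ r(x)`. -/
def Below (t x y : ℕ) : Prop := y / t ≤ x / t ∧ y % t ≤ x % t

/-- `π` (in one-line notation, positions and values numbered from `0`) is a linear extension of
`NE_{s,t}`: `π(i) ⊴ π(j)` implies `i ≤ j`. -/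
def IsLinearExtension {s t : ℕ} (π : Equiv.Perm (Fin (s * t))) : Prop :=
  ∀ i j, Below t (π i) (π j) → i ≤ j

/-- `π` avoids the pattern `123`. -/
def Avoids123 {n : ℕ} (π : Equiv.Perm (Fin n)) : Prop :=
  ∀ i j k, i < j → j < k → ¬ (π i < π j ∧ π j < π k)

/-- The major index of a sequence: the sum of its descents.  With places numbered from `0`, the
descent between the places `i` and `i + 1` is the descent `i + 1` of the usual numbering. -/
def maj {m : ℕ} {α : Type} [LinearOrder α] (w : Fin m → α) : ℕ :=
  ∑ i : Fin m, ∑ j : Fin m, if (j : ℕ) = i + 1 ∧ w j < w i then (i : ℕ) + 1 else 0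

/-- The polynomial `NE_{s,t}(123)[q]`, the sum of `q^{maj π}` over the `123`-avoiding linear
extensions. -/
noncomputable def NE123 (s t : ℕ) : ℤ[X] := by
  classical
  exact ∑ π ∈ univ.filter
    fun π : Equiv.Perm (Fin (s * t)) => IsLinearExtension π ∧ Avoids123 π, X ^ maj π

/-- Catalan words of length `2n`; the letters `0 < 1` are `false < true`. -/
def IsCatalan (n : ℕ) (w : Fin (2 * n) → Bool) : Prop :=
  (univ.filter fun i => w i = false).card = n ∧ (univ.filter fun i => w i = true).card = n ∧
  ∀ p : ℕ, (univ.filter fun i : Fin (2 * n) => (i : ℕ) < p ∧ w i = true).card ≤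
    (univ.filter fun i : Fin (2 * n) => (i : ℕ) < p ∧ w i = false).card

/-- The polynomial `c_n(q)`, the sum of `q^{maj w}` over the Catalan words of length `2n`. -/
noncomputable def cat (n : ℕ) : ℤ[X] := by
  classical
  exact ∑ w ∈ univ.filter fun w : Fin (2 * n) → Bool => IsCatalan n w, X ^ maj w

open Pool.Agent.H210.CatMaj Pool.Agent.H210.CatLE

theorem poly_ext (P Q : ℤ[X]) (h : ∀ q : ℝ, 1 < q → aeval q P = aeval q Q) : P = Q := by
  apply Polynomial.map_injective (Int.castRingHom ℝ) Int.cast_injective
  apply Polynomial.eq_of_infinite_eval_eq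
  refine (Set.Ioi_infinite (1 : ℝ)).mono fun q hq => ?_
  have := h q hq
  rw [Polynomial.aeval_def, Polynomial.aeval_def, Polynomial.eval₂_eq_eval_map,
    Polynomial.eval₂_eq_eval_map] at this
  exact this

theorem isCatalan_iff (n : ℕ) (w : Fin (2 * n) → Bool) : IsCatalan n w ↔
    good w ∧ cb false w (2 * n) = n ∧ cb true w (2 * n) = n := by
  have h : ∀ b, cb b w (2 * n) = (univ.filter fun i => w i = b).card := by
    intro b
    rw [cb_card]
    congr 1
    ext i
    simp
  unfold IsCatalan
  rw [h, h]
  constructor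
  · rintro ⟨h1, h2, h3⟩
    refine ⟨fun p => ?_, h1, h2⟩
    rw [cb_card, cb_card]
    exact h3 p
  · rintro ⟨h1, h2, h3⟩
    refine ⟨h2, h3, fun p => ?_⟩
    have := h1 p
    rwa [cb_card, cb_card] at this

theorem aeval_cat (q : ℝ) (n : ℕ) : aeval q (cat n) = N χV q n n := by
  classical
  unfold cat
  rw [map_sum, N_eq']
  refine Finset.sum_congr ?_ fun w _ => ?_
  · ext w
    simp only [Finset.mem_filter, Finset.mem_univ, true_and]
    exact isCatalan_iff n w
  · rw [map_pow, aeval_X, ← maj_word]
    rfl

theorem aeval_NE (q : ℝ) (hq : q ≠ 0) (s : ℕ) :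
    aeval q (NE123 s 2) = q ^ (2 * s * s - s) * N χH q⁻¹ s s := by
  classical
  unfold NE123
  rw [← sum_maj (c := 1) χH (fun π h i j hij => asc_H h i j hij) q hq, map_sum]
  refine Finset.sum_congr ?_ fun w _ => ?_
  · ext π
    simp only [Finset.mem_filter, Finset.mem_univ, true_and]
    constructor
    · rintro ⟨h, _⟩ a b h1 h2
      exact h a b ⟨h1, by omega⟩
    · intro h
      have h' : LE s 1 π := h
      exact ⟨fun i j hij => h i j hij.1 (by have := hij.2; omega),
        fun i j k hij hjk => avoids h' i j k hij hjk⟩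
  · rw [map_pow, aeval_X]
    rfl

/-- **The identity holds for every `s`**:
`NE_{s,2}(123)[q] = q^{s^2} c_s(q)`. -/
theorem result (s : ℕ) : NE123 s 2 = X ^ (s ^ 2) * cat s := by
  apply poly_ext
  intro q hq
  have hq0 : q ≠ 0 := by linarith
  rw [aeval_NE q hq0, map_mul, map_pow, aeval_X, aeval_cat]
  have h := symm q hq (N χV q) (N χH q⁻¹) (rec_V q) (rec_H q⁻¹) s
  have h2 : s ≤ 2 * s * s := by
    have := Nat.le_mul_self s
    nlinarith
  have e1 : q ^ (2 * s * s - s) * N χH q⁻¹ s s * q ^ (2 * s) =
      N χH q⁻¹ s s * q ^ (2 * s * s + s) := by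
    calc q ^ (2 * s * s - s) * N χH q⁻¹ s s * q ^ (2 * s)
        = N χH q⁻¹ s s * (q ^ (2 * s * s - s) * q ^ (2 * s)) := by ring
      _ = _ := by rw [← pow_add, show 2 * s * s - s + 2 * s = 2 * s * s + s by omega]
  have e2 : q ^ (s ^ 2) * N χV q s s * q ^ (2 * s) = N χV q s s * q ^ (s * s + 2 * s) := by
    rw [sq]
    ring
  have hne : q ^ (2 * s) ≠ 0 := pow_ne_zero _ hq0
  apply mul_right_cancel₀ hne
  rw [e1, e2, h]

end Pool.Agent.Results.MP_1fed52_co.MajorIndex
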